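import Pool.Agent.helper37.MW.Spec
import Pool.Agent.helper55.NK.Base

set_option autoImplicit false

namespace Pool.Agent.helper37.MW

open Finset Pool.Agent.NK

theorem SGL_mono (q b : ℕ) (hb : 2 * b ≤ q) : ∀ d a : ℕ, a + d = b → q.choose a ≤ q.choose b := by
  intro d
  induction d with
  | zero =>
    intro a h
    rw [Nat.add_zero] at h
    rw [h]
  | succ d ih =>
    intro a h
    have h1 : q.choose a ≤ q.choose (a + 1) := by
      apply Nat.choose_le_succ_of_lt_half_left
      omega
    exact h1.trans (ih (a + 1) (by omega))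

theorem SGL : SGL_stmt := by
  intro p q k C hk hq hn hC h1
  have e1 : ∑ c ∈ C, p.choose c.1 * q.choose c.2 =
      ∑ c ∈ C.filter (fun c => c.1 ≤ p), p.choose c.1 * q.choose c.2 := by
    symm
    apply sum_subset (filter_subset _ _)
    intro c hc hc'
    have h2 : p < c.1 := by
      by_contra hh
      exact hc' (mem_filter.2 ⟨hc, not_lt.1 hh⟩)
    rw [Nat.choose_eq_zero_of_lt h2, zero_mul]
  rw [e1]
  rcases Nat.le_one_iff_eq_zero_or_eq_one.1 h1 with h0 | h0
  · rw [card_eq_zero.1 h0, sum_empty]
    exact Nat.zero_le _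
  · obtain ⟨c, hc⟩ := card_eq_one.1 h0
    have hcm : c ∈ C.filter (fun c => c.1 ≤ p) := by
      rw [hc]
      exact mem_singleton_self c
    rw [hc, sum_singleton]
    obtain ⟨c1, c2, c3⟩ := hC c (mem_filter.1 hcm).1
    have h3 : q.choose c.2 ≤ q.choose (k - c.1) :=
      SGL_mono q (k - c.1) (by omega) (k - c.1 - c.2) c.2 (by omega)
    have h4 := Pool.Agent.NK.Base.prod_le p q c.1 (k - c.1) c1 (by omega) (by omega)
    have e2 : c.1 + (k - c.1) = k := by omega
    rw [e2] at h4
    have h5 : p.choose c.1 * q.choose c.2 ≤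
        (p + q + 1) / k * (p + q - (p + q + 1) / k).choose (k - 1) :=
      (Nat.mul_le_mul_left _ h3).trans h4
    refine h5.trans ?_
    by_cases h6 : p + q + 1 < 3 * k
    · have e3 : (p + q + 1) / k = 2 := by
        apply Nat.div_eq_of_lt_le
        · omega
        · omega
      rw [e3]
    · have e4 : p + q + 1 = 3 * k := by omega
      have e3 : (p + q + 1) / k = 3 := by
        rw [e4]
        exact Nat.mul_div_cancel _ (by omega)
      rw [e3]
      obtain ⟨t, rfl⟩ : ∃ t, k = t + 2 := ⟨k - 2, by omega⟩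
      have e5 : p + q - 3 = 3 * t + 2 := by omega
      have e6 : p + q - 2 = 3 * t + 2 + 1 := by omega
      have e7 : t + 2 - 1 = t + 1 := by omega
      rw [e5, e6, e7]
      have e8 := Nat.choose_mul_succ_eq (3 * t + 2) (t + 1)
      have e9 : 3 * t + 2 + 1 - (t + 1) = 2 * (t + 1) := by omega
      rw [e9] at e8
      have e10 : (3 * (3 * t + 2).choose (t + 1)) * (t + 1) =
          (2 * (3 * t + 2 + 1).choose (t + 1)) * (t + 1) := by
        calc (3 * (3 * t + 2).choose (t + 1)) * (t + 1)
            = (3 * t + 2).choose (t + 1) * (3 * t + 2 + 1) := by ring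
          _ = (3 * t + 2 + 1).choose (t + 1) * (2 * (t + 1)) := e8
          _ = (2 * (3 * t + 2 + 1).choose (t + 1)) * (t + 1) := by ring
      exact (Nat.eq_of_mul_eq_mul_right (Nat.succ_pos t) e10).le

end Pool.Agent.helper37.MW
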